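import Mathlib

/-!
# Squeezing function, Levi form, finite type: definitions
-/

namespace Pool.Agent.V8H60.Squeeze

open Metric Set Filter Topology Asymptotics
open scoped ContDiff

/-- complex Euclidean space -/
abbrev E (n : ℕ) := EuclideanSpace ℂ (Fin n)

variable {n : ℕ}

/-- The radii `r > 0` such that for some injective holomorphic map `F` of `D` into the unit ball
with `F z = 0` the image `F(D)` contains the ball of radius `r` about `0`. -/
def squeezeRadii (D : Set (E n)) (z : E n) : Set ℝ :=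
  {r | 0 < r ∧ ∃ F : E n → E n, DifferentiableOn ℂ F D ∧ InjOn F D ∧ F z = 0 ∧
    F '' D ⊆ ball 0 1 ∧ ball 0 r ⊆ F '' D}

/-- The squeezing function of `D`. -/
noncomputable def squeezing (D : Set (E n)) (z : E n) : ℝ := sSup (squeezeRadii D z)

/-- `ρ` is a smooth defining function of `D` on the open neighbourhood `U` of `p`; so the boundary
of `D` is smooth near `p`. -/
structure IsSmoothBoundary (D : Set (E n)) (p : E n) (U : Set (E n)) (ρ : E n → ℝ) : Prop where
  isOpen : IsOpen U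
  mem : p ∈ U
  mem_frontier : p ∈ frontier D
  smooth : ContDiffOn ℝ ∞ ρ U
  inter_eq : D ∩ U = {z | z ∈ U ∧ ρ z < 0}
  frontier_eq : frontier D ∩ U = {z | z ∈ U ∧ ρ z = 0}
  fderiv_ne : ∀ z ∈ U, ρ z = 0 → fderiv ℝ ρ z ≠ 0

/-- The Levi form of `ρ` at `q` in the direction `v`, that is the value at `ζ = 0` of
`∂²/∂ζ∂ζ̄ ρ(q + ζ v)`, a quarter of the Laplacian of `ζ ↦ ρ(q + ζ v)`. -/
noncomputable def levi (ρ : E n → ℝ) (q v : E n) : ℝ :=
  (iteratedDeriv 2 (fun s : ℝ => ρ (q + (s : ℂ) • v)) 0 +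
    iteratedDeriv 2 (fun s : ℝ => ρ (q + ((s : ℂ) * Complex.I) • v)) 0) / 4

/-- `v` is a complex tangent vector at `q` of the level set of `ρ`. -/
def CTangent (ρ : E n → ℝ) (q v : E n) : Prop :=
  fderiv ℝ ρ q v = 0 ∧ fderiv ℝ ρ q (Complex.I • v) = 0

/-- Levi pseudoconvexity of the boundary `{ρ = 0}` in `U`. -/
def LeviPseudoconvexOn (U : Set (E n)) (ρ : E n → ℝ) : Prop :=
  ∀ q ∈ U, ρ q = 0 → ∀ v, CTangent ρ q v → 0 ≤ levi ρ q v

/-- Strong (Levi) pseudoconvexity at `p`: the Levi form is positive definite on the complex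
tangent space. -/
def StronglyPseudoconvexAt (ρ : E n → ℝ) (p : E n) : Prop :=
  ∀ v, CTangent ρ p v → v ≠ 0 → 0 < levi ρ p v

/-- Finite D'Angelo type at `q`: for some `N`, for every nonconstant germ `γ` of a holomorphic
curve with `γ 0 = q` the order of vanishing at `0` of `ρ ∘ γ` is at most `N` times the order of
vanishing of `γ - q`. -/
def FiniteTypeAt (ρ : E n → ℝ) (q : E n) : Prop :=
  ∃ N : ℕ, ∀ γ : ℂ → E n, AnalyticAt ℂ γ 0 → γ 0 = q → ∀ m k : ℕ,
    analyticOrderAt (fun ζ => γ ζ - q) 0 = m →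
      (fun ζ : ℂ => ρ (γ ζ)) =O[𝓝 0] (fun ζ : ℂ => ‖ζ‖ ^ k) → k ≤ N * m

/-- the Levi form at `p` has at least `r` positive eigenvalues -/
def PositiveEigenvaluesGE (ρ : E n → ℝ) (p : E n) (r : ℕ) : Prop :=
  ∃ V : Submodule ℂ (E n), r ≤ Module.finrank ℂ V ∧ (∀ v ∈ V, CTangent ρ p v) ∧
    ∀ v ∈ V, v ≠ 0 → 0 < levi ρ p v

/-- Condition (A) of the problem: `n = 2`, the boundary is Levi pseudoconvex near `p` (that is,
in `U`) and of finite type at `p`. -/
def CondA (U : Set (E n)) (ρ : E n → ℝ) (p : E n) : Prop :=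
  n = 2 ∧ LeviPseudoconvexOn U ρ ∧ FiniteTypeAt ρ p

/-- Condition (B) of the problem: `n ≥ 2`, the boundary is Levi pseudoconvex and of finite type near
`p` and the Levi form at `p` has at least `n - 2` positive eigenvalues. -/
def CondB (U : Set (E n)) (ρ : E n → ℝ) (p : E n) : Prop :=
  2 ≤ n ∧ LeviPseudoconvexOn U ρ ∧ (∀ q ∈ U, ρ q = 0 → FiniteTypeAt ρ q) ∧
    PositiveEigenvaluesGE ρ p (n - 2)

/-- Condition (C) of the problem: `n ≥ 2`, `D` is convex and its boundary is of finite type near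
`p`. -/
def CondC (D U : Set (E n)) (ρ : E n → ℝ) : Prop :=
  2 ≤ n ∧ Convex ℝ D ∧ ∀ q ∈ U, ρ q = 0 → FiniteTypeAt ρ q

end Pool.Agent.V8H60.Squeeze
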