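import Mathlib
import Pool.Agent.V8H60.Squeeze.Defs

/-!
# The squeezing function near a boundary point modelled on the Siegel domain
-/

namespace Pool.Agent.V8H60.Squeeze

open Metric Set Filter Topology

variable {n : ℕ}

/-- the unit vector in the direction `o` -/
noncomputable def ev (o : Fin n) : E n := EuclideanSpace.single o 1

lemma ev_apply_self (o : Fin n) : ev o o = 1 := by simp [ev]

lemma ev_apply_ne {o j : Fin n} (h : j ≠ o) : ev o j = 0 := by simp [ev, h]

lemma norm_ev (o : Fin n) : ‖ev o‖ = 1 := by simp [ev]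

lemma inner_ev (o : Fin n) (v : E n) : inner ℂ (ev o) v = v o := by
  simp [ev, EuclideanSpace.inner_single_left]

lemma coord_le_norm (v : E n) (j : Fin n) : ‖v j‖ ≤ ‖v‖ := by
  exact PiLp.norm_apply_le v j

lemma squeezeRadii_le_one (hn : 0 < n) (D : Set (E n)) (z : E n) {r : ℝ}
    (hr : r ∈ squeezeRadii D z) : r ≤ 1 := by
  obtain ⟨hr0, F, -, -, -, h1, h2⟩ := hr
  by_contra h
  push Not at h
  set o : Fin n := ⟨0, hn⟩
  have hx : (1 : ℂ) • ev o ∈ ball (0 : E n) r := by
    rw [mem_ball_zero_iff, one_smul, norm_ev]; exact h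
  have := h1 (h2 hx)
  rw [mem_ball_zero_iff, one_smul, norm_ev] at this
  exact lt_irrefl _ this

lemma le_squeezing (hn : 0 < n) (D : Set (E n)) (z : E n) {r : ℝ}
    (hr : r ∈ squeezeRadii D z) : r ≤ squeezing D z :=
  le_csSup ⟨1, fun _ h => squeezeRadii_le_one hn D z h⟩ hr

lemma squeezing_le_one (hn : 0 < n) (D : Set (E n)) (z : E n) : squeezing D z ≤ 1 := by
  unfold squeezing
  rcases (squeezeRadii D z).eq_empty_or_nonempty with h | h
  · rw [h, Real.sSup_empty]; norm_num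
  · exact csSup_le h fun _ h => squeezeRadii_le_one hn D z h

/-- the tangential part of the norm: `‖v‖² - |v o|²` -/
noncomputable def tn (o : Fin n) (v : E n) : ℝ := ‖v‖ ^ 2 - ‖v o‖ ^ 2

lemma tn_nonneg (o : Fin n) (v : E n) : 0 ≤ tn o v := by
  unfold tn
  have := coord_le_norm v o
  have h0 := norm_nonneg (v o)
  nlinarith

/-- the Cayley transform -/
noncomputable def cay (o : Fin n) (v : E n) : E n := (2 / (1 + v o)) • v - ev o

lemma cay_apply_self (o : Fin n) (v : E n) : cay o v o = 2 * v o / (1 + v o) - 1 := by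
  unfold cay
  rw [PiLp.sub_apply, PiLp.smul_apply, ev_apply_self, smul_eq_mul]
  ring

lemma norm_sq_cay (o : Fin n) (v : E n) (h : 1 + v o ≠ 0) :
    ‖cay o v‖ ^ 2 = 1 + 4 * (tn o v - (v o).re) / ‖1 + v o‖ ^ 2 := by
  have h1 : ‖cay o v‖ ^ 2 = ‖(2 / (1 + v o)) • v‖ ^ 2 -
      2 * (inner ℂ ((2 / (1 + v o)) • v) (ev o)).re + ‖ev o‖ ^ 2 := by
    unfold cay
    rw [@norm_sub_sq ℂ]
    rfl
  rw [h1, norm_ev, norm_smul, inner_smul_left, ← inner_conj_symm, inner_ev, ← map_mul,
    Complex.conj_re]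
  have hpos : 0 < ‖1 + v o‖ := norm_pos_iff.2 h
  set W := v o with hW
  have hre : (2 / (1 + W) * W).re = 2 * (W.re + ‖W‖ ^ 2) / ‖1 + W‖ ^ 2 := by
    have e1 : 2 / (1 + W) * W = 2 * W / (1 + W) := by ring
    rw [e1, Complex.div_re, ← Complex.normSq_eq_norm_sq, ← Complex.normSq_eq_norm_sq]
    have hn : Complex.normSq (1 + W) ≠ 0 := by
      rw [Complex.normSq_eq_norm_sq]; positivity
    simp only [Complex.add_re, Complex.one_re, Complex.add_im, Complex.one_im, Complex.mul_re,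
      Complex.mul_im, Complex.re_ofNat, Complex.im_ofNat, Complex.normSq_apply W]
    field_simp
    ring
  rw [hre, norm_div, Complex.norm_ofNat]
  unfold tn
  field_simp
  ring

/-- the inverse Cayley transform -/
noncomputable def caySymm (o : Fin n) (u : E n) : E n := (1 / (1 - u o)) • (u + ev o)

lemma caySymm_apply_self (o : Fin n) (u : E n) : caySymm o u o = (1 + u o) / (1 - u o) := by
  unfold caySymm
  rw [PiLp.smul_apply, PiLp.add_apply, ev_apply_self, smul_eq_mul]
  ring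

lemma caySymm_cay (o : Fin n) (v : E n) (h : 1 + v o ≠ 0) : caySymm o (cay o v) = v := by
  have h1 : 1 - cay o v o = 2 / (1 + v o) := by
    rw [cay_apply_self]
    field_simp
    ring
  unfold caySymm
  rw [h1]
  unfold cay
  rw [sub_add_cancel, smul_smul]
  have : 1 / (2 / (1 + v o)) * (2 / (1 + v o)) = 1 := by
    have h2 : (2 / (1 + v o)) ≠ 0 := div_ne_zero two_ne_zero h
    field_simp
  rw [this, one_smul]

lemma cay_caySymm (o : Fin n) (u : E n) (h : 1 - u o ≠ 0) : cay o (caySymm o u) = u := by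
  have h1 : 1 + caySymm o u o = 2 / (1 - u o) := by
    rw [caySymm_apply_self]
    field_simp
    ring
  unfold cay
  rw [h1]
  unfold caySymm
  rw [smul_smul]
  have : 2 / (2 / (1 - u o)) * (1 / (1 - u o)) = 1 := by
    field_simp
  rw [this, one_smul, add_sub_cancel_right]

lemma one_sub_ne {o : Fin n} {u : E n} (hu : ‖u‖ < 1) : 1 - u o ≠ 0 := by
  intro h
  have h1 : u o = 1 := (sub_eq_zero.1 h).symm
  have h2 := coord_le_norm u o
  rw [h1, norm_one] at h2
  linarith

lemma caySymm_re (o : Fin n) (u : E n) (hu : ‖u‖ < 1) :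
    (caySymm o u o).re - tn o (caySymm o u) = (1 - ‖u‖ ^ 2) / ‖1 - u o‖ ^ 2 := by
  have h0 := one_sub_ne (o := o) hu
  have h1 : 1 + caySymm o u o = 2 / (1 - u o) := by
    rw [caySymm_apply_self]
    field_simp
    ring
  have h2 : 1 + caySymm o u o ≠ 0 := by
    rw [h1]; exact div_ne_zero two_ne_zero h0
  have h3 := norm_sq_cay o (caySymm o u) h2
  rw [cay_caySymm o u h0, h1, norm_div, Complex.norm_ofNat] at h3
  have hpos : 0 < ‖1 - u o‖ := norm_pos_iff.2 h0
  rw [h3]
  field_simp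
  ring

lemma norm_caySymm_le (o : Fin n) (u : E n) (ε : ℝ) (hε : 0 < ε) (hu : ‖u‖ < 1 - ε) :
    ‖caySymm o u‖ ≤ 2 / ε := by
  unfold caySymm
  have hu0 := coord_le_norm u o
  have h1 : ε ≤ ‖1 - u o‖ := by
    have := norm_sub_norm_le (1 : ℂ) (u o)
    rw [norm_one] at this
    linarith
  rw [norm_smul, norm_div, norm_one]
  have h2 : ‖u + ev o‖ ≤ 2 := by
    refine (norm_add_le _ _).trans ?_
    rw [norm_ev]; linarith
  calc 1 / ‖1 - u o‖ * ‖u + ev o‖ ≤ (1 / ε) * 2 := by
        refine mul_le_mul (one_div_le_one_div_of_le hε h1) h2 (norm_nonneg _) (by positivity)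
    _ = 2 / ε := by ring

/-- Abstract squeezing estimate: after the change of coordinates `Φ τ` with inverse `Ψ τ` the domain
`D = {ρ < 0}` is close to the Siegel domain `{Re v_o > ‖v‖² - |v_o|²}` on bounded sets, and it is
contained in a larger Siegel domain. -/
theorem squeezing_model (hn : 0 < n) (o : Fin n) (D : Set (E n)) (ρ : E n → ℝ)
    (hD : D = {z | ρ z < 0}) (Φ Ψ : ℝ → E n → E n)
    (hΨΦ : ∀ τ, 0 < τ → ∀ z, Ψ τ (Φ τ z) = z) (hΦΨ : ∀ τ, 0 < τ → ∀ v, Φ τ (Ψ τ v) = v)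
    (hΦd : ∀ τ, 0 < τ → Differentiable ℂ (Φ τ)) (c : ℝ) (hc : 0 < c)
    (hglob : ∀ τ, 0 < τ → ∀ v, τ ^ 2 * (-(v o).re + c * tn o v) ≤ ρ (Ψ τ v))
    (hloc : ∀ R : ℝ, ∃ K : ℝ, 0 ≤ K ∧ ∀ τ, 0 < τ → τ ≤ 1 → ∀ v : E n, ‖v‖ ≤ R →
      |ρ (Ψ τ v) - τ ^ 2 * (-(v o).re + tn o v)| ≤ K * τ ^ 3)
    (ε : ℝ) (hε : 0 < ε) (hε1 : ε ≤ 1) :
    ∃ τ₀ : ℝ, 0 < τ₀ ∧ ∀ τ, 0 < τ → τ < τ₀ → Ψ τ (ev o) ∈ D ∧
      1 - ε ≤ squeezing D (Ψ τ (ev o)) := by
  set e₁ : ℝ := ε / 4 with he₁
  have he0 : 0 < e₁ := by positivity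
  have he1 : e₁ ≤ 1 / 4 := by rw [he₁]; linarith
  obtain ⟨K1, hK1, hK1'⟩ := hloc (2 / e₁)
  set R2 : ℝ := 4 / (c * e₁) + 1 with hR2
  have hR2pos : 0 < R2 := by positivity
  set R3 : ℝ := Real.sqrt (R2 ^ 2 + R2 / c) with hR3
  obtain ⟨K3, hK3, hK3'⟩ := hloc R3
  refine ⟨min 1 (min (e₁ / (4 * (K1 + 1))) (e₁ / (4 * (K3 + 1)))), by positivity, ?_⟩
  intro τ hτ0 hτ
  have hτ1 : τ ≤ 1 := (hτ.le).trans (min_le_left _ _)
  have hτK1 : 4 * K1 * τ < e₁ := by
    have h1 : τ < e₁ / (4 * (K1 + 1)) := lt_of_lt_of_le hτ ((min_le_right _ _).trans (min_le_left _ _))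
    rw [lt_div_iff₀ (by positivity)] at h1
    nlinarith
  have hτK3 : 4 * K3 * τ < e₁ := by
    have h1 : τ < e₁ / (4 * (K3 + 1)) := lt_of_lt_of_le hτ ((min_le_right _ _).trans (min_le_right _ _))
    rw [lt_div_iff₀ (by positivity)] at h1
    nlinarith
  -- points over the smaller ball lie in `D`
  have hinD : ∀ u : E n, ‖u‖ < 1 - e₁ → Ψ τ (caySymm o u) ∈ D := by
    intro u hu
    have h1 := hK1' τ hτ0 hτ1 (caySymm o u) (norm_caySymm_le o u e₁ he0 hu)
    have h2 := caySymm_re o u (by linarith)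
    have hu0 := norm_nonneg u
    have huo := coord_le_norm u o
    have h3 : ‖1 - u o‖ ≤ 2 := by
      refine (norm_sub_le _ _).trans ?_
      rw [norm_one]; linarith
    have h4 : 0 < ‖1 - u o‖ := norm_pos_iff.2 (one_sub_ne (by linarith))
    have h5 : e₁ ≤ 1 - ‖u‖ ^ 2 := by nlinarith
    have h6 : e₁ / 4 ≤ (1 - ‖u‖ ^ 2) / ‖1 - u o‖ ^ 2 := by
      rw [div_le_div_iff₀ (by norm_num) (by positivity)]
      have : ‖1 - u o‖ ^ 2 ≤ 4 := by nlinarith
      nlinarith
    rw [hD, mem_ofPred_eq]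
    have h7 := (abs_le.1 h1).2
    have h8 : ρ (Ψ τ (caySymm o u)) ≤ τ ^ 2 * (-(e₁ / 4)) + K1 * τ ^ 3 := by
      have : -(caySymm o u o).re + tn o (caySymm o u) ≤ -(e₁ / 4) := by linarith
      have h9 := mul_le_mul_of_nonneg_left this (sq_nonneg τ)
      linarith
    have h10 : τ ^ 2 * (-(e₁ / 4)) + K1 * τ ^ 3 = τ ^ 2 * (K1 * τ - e₁ / 4) := by ring
    have h11 : τ ^ 2 * (K1 * τ - e₁ / 4) < 0 :=
      mul_neg_of_pos_of_neg (by positivity) (by linarith)
    linarith
  -- the image of `D` lies in a slightly larger ball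
  have hball : ∀ z ∈ D, 0 < (Φ τ z o).re ∧ ‖cay o (Φ τ z)‖ ^ 2 < 1 + e₁ := by
    intro z hz
    set v := Φ τ z with hv
    have hρ : ρ (Ψ τ v) < 0 := by
      rw [hv, hΨΦ τ hτ0]; rw [hD] at hz; exact hz
    have hτ2 : 0 < τ ^ 2 := by positivity
    have h1 : -(v o).re + c * tn o v < 0 := by
      have := hglob τ hτ0 v
      by_contra hcon
      push Not at hcon
      have := mul_nonneg hτ2.le hcon
      linarith
    have htn := tn_nonneg o v
    have hre : 0 < (v o).re := by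
      have : 0 ≤ c * tn o v := mul_nonneg hc.le htn
      linarith
    refine ⟨hre, ?_⟩
    have hne : 1 + v o ≠ 0 := by
      intro h
      have := congrArg Complex.re h
      simp at this
      linarith
    rw [norm_sq_cay o v hne]
    have hpos : 0 < ‖1 + v o‖ := norm_pos_iff.2 hne
    have hN : ‖1 + v o‖ ^ 2 = 1 + 2 * (v o).re + ‖v o‖ ^ 2 := by
      rw [← Complex.normSq_eq_norm_sq, ← Complex.normSq_eq_norm_sq, Complex.normSq_apply,
        Complex.normSq_apply]
      simp only [Complex.add_re, Complex.one_re, Complex.add_im, Complex.one_im]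
      ring
    have hN0 : 0 ≤ ‖v o‖ := norm_nonneg _
    have hret : (v o).re ≤ ‖v o‖ := Complex.re_le_norm _
    suffices h : 4 * (tn o v - (v o).re) < e₁ * ‖1 + v o‖ ^ 2 by
      have : 4 * (tn o v - (v o).re) / ‖1 + v o‖ ^ 2 < e₁ := by
        rw [div_lt_iff₀ (by positivity)]; exact h
      linarith
    have htnc : tn o v < (v o).re / c := by
      rw [lt_div_iff₀ hc]; linarith
    rcases le_or_gt R2 ‖v o‖ with hcase | hcase
    · -- far away
      have h2 : 4 * (tn o v - (v o).re) < 4 * (‖v o‖ / c) := by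
        have : (v o).re / c ≤ ‖v o‖ / c := div_le_div_of_nonneg_right hret hc.le
        linarith
      have h3 : 4 * (‖v o‖ / c) ≤ e₁ * ‖v o‖ ^ 2 := by
        have h4 : 4 / (c * e₁) ≤ ‖v o‖ := by linarith
        rw [div_le_iff₀ (by positivity)] at h4
        have h5 : 4 / c ≤ e₁ * ‖v o‖ := by
          rw [div_le_iff₀ hc]; linarith
        calc 4 * (‖v o‖ / c) = (4 / c) * ‖v o‖ := by ring
          _ ≤ (e₁ * ‖v o‖) * ‖v o‖ := mul_le_mul_of_nonneg_right h5 hN0
          _ = e₁ * ‖v o‖ ^ 2 := by ring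
      have h6 : e₁ * ‖v o‖ ^ 2 ≤ e₁ * ‖1 + v o‖ ^ 2 := by
        refine mul_le_mul_of_nonneg_left ?_ he0.le
        rw [hN]; linarith
      linarith
    · -- bounded part
      have h2 : ‖v‖ ≤ R3 := by
        rw [hR3]
        apply Real.le_sqrt_of_sq_le
        have h3 : ‖v‖ ^ 2 = tn o v + ‖v o‖ ^ 2 := by unfold tn; ring
        have h4 : (v o).re / c ≤ R2 / c := div_le_div_of_nonneg_right (by linarith) hc.le
        rw [h3]
        nlinarith
      have h3 := (abs_le.1 (hK3' τ hτ0 hτ1 v h2)).1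
      have h4 : τ ^ 2 * (-(v o).re + tn o v) < K3 * τ ^ 3 := by linarith
      have h5 : -(v o).re + tn o v < K3 * τ := by
        have h6 : τ ^ 2 * (-(v o).re + tn o v) < τ ^ 2 * (K3 * τ) := by
          calc _ < K3 * τ ^ 3 := h4
            _ = τ ^ 2 * (K3 * τ) := by ring
        exact lt_of_mul_lt_mul_left h6 hτ2.le
      have h7 : 1 ≤ ‖1 + v o‖ ^ 2 := by rw [hN]; nlinarith
      nlinarith
  set lam : ℝ := 1 / Real.sqrt (1 + e₁) with hlam
  have hs1 : 0 < Real.sqrt (1 + e₁) := Real.sqrt_pos.2 (by linarith)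
  have hlam0 : 0 < lam := by positivity
  have hsq : Real.sqrt (1 + e₁) ^ 2 = 1 + e₁ := Real.sq_sqrt (by linarith)
  have hlam1 : 1 - e₁ ≤ lam := by
    rw [hlam, le_div_iff₀ hs1]
    have h1 : Real.sqrt (1 + e₁) ≤ 1 + e₁ := by
      rw [Real.sqrt_le_left (by linarith)]
      nlinarith
    nlinarith
  have hev : Ψ τ (ev o) ∈ D := by
    have h1 : caySymm o (0 : E n) = ev o := by
      unfold caySymm; simp
    have := hinD 0 (by rw [norm_zero]; linarith)
    rwa [h1] at this
  refine ⟨hev, ?_⟩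
  have hmem : lam * (1 - e₁) ∈ squeezeRadii D (Ψ τ (ev o)) := by
    refine ⟨mul_pos hlam0 (by linarith), fun z => (lam : ℂ) • cay o (Φ τ z), ?_, ?_, ?_, ?_, ?_⟩
    · intro z hz
      have hre := (hball z hz).1
      have hne : 1 + Φ τ z o ≠ 0 := by
        intro h
        have := congrArg Complex.re h
        simp at this
        linarith
      have hd := (hΦd τ hτ0) z
      have hdo : DifferentiableAt ℂ (fun z => Φ τ z o) z := (differentiableAt_euclidean.1 hd) o
      have h1 : DifferentiableAt ℂ (fun z => (lam : ℂ) • cay o (Φ τ z)) z := by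
        have h2 : DifferentiableAt ℂ (fun z => (2 / (1 + Φ τ z o)) • Φ τ z - ev o) z := by
          have h4 : DifferentiableAt ℂ (fun z : E n => (1 + Φ τ z o : ℂ)) z :=
            (differentiableAt_const (1 : ℂ)).add hdo
          have h3 : DifferentiableAt ℂ (fun z : E n => (2 / (1 + Φ τ z o) : ℂ)) z := by
            simp only [div_eq_mul_inv]
            exact (h4.fun_inv hne).const_mul 2
          exact (h3.smul hd).sub (differentiableAt_const _)
        exact h2.const_smul (lam : ℂ)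
      exact h1.differentiableWithinAt
    · intro z hz z' hz' h
      have hre := (hball z hz).1
      have hre' := (hball z' hz').1
      have hne : 1 + Φ τ z o ≠ 0 := by
        intro h
        have := congrArg Complex.re h
        simp at this
        linarith
      have hne' : 1 + Φ τ z' o ≠ 0 := by
        intro h
        have := congrArg Complex.re h
        simp at this
        linarith
      have hl : (lam : ℂ) ≠ 0 := by exact_mod_cast hlam0.ne'
      have h1 : cay o (Φ τ z) = cay o (Φ τ z') := smul_right_injective _ hl h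
      have h2 : Φ τ z = Φ τ z' := by
        rw [← caySymm_cay o (Φ τ z) hne, h1, caySymm_cay o (Φ τ z') hne']
      rw [← hΨΦ τ hτ0 z, h2, hΨΦ τ hτ0 z']
    · simp only
      rw [hΦΨ τ hτ0]
      have : cay o (ev o) = 0 := by
        unfold cay
        rw [ev_apply_self]
        norm_num
      rw [this, smul_zero]
    · rintro _ ⟨z, hz, rfl⟩
      have h1 := (hball z hz).2
      rw [mem_ball_zero_iff, norm_smul, Complex.norm_real, Real.norm_eq_abs, abs_of_pos hlam0]
      have h2 : ‖cay o (Φ τ z)‖ < Real.sqrt (1 + e₁) := Real.lt_sqrt_of_sq_lt h1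
      calc lam * ‖cay o (Φ τ z)‖ < lam * Real.sqrt (1 + e₁) :=
            mul_lt_mul_of_pos_left h2 hlam0
        _ = 1 := by rw [hlam]; field_simp
    · intro y hy
      rw [mem_ball_zero_iff] at hy
      have hl : (lam : ℂ) ≠ 0 := by exact_mod_cast hlam0.ne'
      set u : E n := (lam : ℂ)⁻¹ • y with hu
      have hun : ‖u‖ < 1 - e₁ := by
        rw [hu, norm_smul, norm_inv, Complex.norm_real, Real.norm_eq_abs, abs_of_pos hlam0,
          inv_mul_lt_iff₀ hlam0]
        exact hy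
      refine ⟨Ψ τ (caySymm o u), hinD u hun, ?_⟩
      simp only
      rw [hΦΨ τ hτ0, cay_caySymm o u (one_sub_ne (by linarith)), hu, smul_smul,
        mul_inv_cancel₀ hl, one_smul]
  have h1 := le_squeezing hn D _ hmem
  refine le_trans ?_ h1
  nlinarith

end Pool.Agent.V8H60.Squeeze
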