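import Mathlib
import Pool.Agent.V8H60.Squeeze.Cayley

/-!
# The domain `x⁴ + y⁴ + |w - 1|² + ∑ |z_j|² < 1` and its squeezing function near the origin
-/

namespace Pool.Agent.V8H60.Squeeze

open Metric Set Filter Topology

variable {m : ℕ}

/-- the sum of the squares of the coordinates `2, 3, …` -/
noncomputable def ss (v : E (m + 2)) : ℝ := ∑ i : Fin m, ‖v i.succ.succ‖ ^ 2

lemma ss_nonneg (v : E (m + 2)) : 0 ≤ ss v := Finset.sum_nonneg fun _ _ => sq_nonneg _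

/-- the defining function -/
noncomputable def rho (z : E (m + 2)) : ℝ :=
  (z 0).re ^ 4 + (z 0).im ^ 4 + ‖z 1‖ ^ 2 - 2 * (z 1).re + ∑ i : Fin m, ‖z i.succ.succ‖ ^ 2

lemma norm_sq_eq3 (v : E (m + 2)) : ‖v‖ ^ 2 = ‖v 0‖ ^ 2 + ‖v 1‖ ^ 2 + ss v := by
  rw [EuclideanSpace.norm_sq_eq, Fin.sum_univ_succ, Fin.sum_univ_succ]
  simp only [Fin.succ_zero_eq_one]
  unfold ss
  ring

lemma tn_eq (v : E (m + 2)) : tn 1 v = ‖v 0‖ ^ 2 + ss v := by
  unfold tn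
  rw [norm_sq_eq3]; ring

lemma normsq (z : ℂ) : ‖z‖ ^ 2 = z.re ^ 2 + z.im ^ 2 := by
  rw [← Complex.normSq_eq_norm_sq, Complex.normSq_apply]; ring

/-- the positive square root of `1 - 2 t⁴` -/
noncomputable def sq (t : ℝ) : ℝ := Real.sqrt (1 - 2 * t ^ 4)

/-- the Levi coefficient -/
noncomputable def kap (t : ℝ) : ℝ := 6 * t ^ 2 + 8 * t ^ 6 / sq t ^ 2

lemma sq_sq {t : ℝ} (ht0 : 0 < t) (ht : t ≤ 1 / 2) : sq t ^ 2 = 1 - 2 * t ^ 4 := by
  unfold sq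
  apply Real.sq_sqrt
  have : t ^ 4 ≤ (1 / 2) ^ 4 := pow_le_pow_left₀ ht0.le ht 4
  norm_num at this
  linarith

lemma sq_pos {t : ℝ} (ht0 : 0 < t) (ht : t ≤ 1 / 2) : 0 < sq t := by
  unfold sq
  apply Real.sqrt_pos.2
  have : t ^ 4 ≤ (1 / 2) ^ 4 := pow_le_pow_left₀ ht0.le ht 4
  norm_num at this
  linarith

lemma kap_pos {t : ℝ} (ht0 : 0 < t) : 0 < kap t := by
  unfold kap
  have : 0 ≤ 8 * t ^ 6 / sq t ^ 2 := by positivity
  have : 0 < 6 * t ^ 2 := by positivity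
  linarith

lemma kap_le {t : ℝ} (ht0 : 0 < t) (ht : t ≤ 1 / 2) : kap t ≤ 7 * t ^ 2 := by
  unfold kap
  have h1 : t ^ 2 ≤ 1 / 4 := by nlinarith
  have h2 : t ^ 4 ≤ 1 / 16 := by nlinarith [sq_nonneg (t ^ 2)]
  have h3 : 8 * t ^ 6 / sq t ^ 2 ≤ t ^ 2 := by
    rw [sq_sq ht0 ht, div_le_iff₀ (by linarith)]
    have : t ^ 6 = t ^ 2 * t ^ 4 := by ring
    rw [this]
    nlinarith [sq_nonneg t]
  linarith

/-- change of coordinates, from the model to the domain -/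
noncomputable def Psi (t τ : ℝ) (v : E (m + 2)) : E (m + 2) :=
  WithLp.toLp 2 (Fin.cons ((t : ℂ) * (1 + Complex.I) + τ * v 0 / Real.sqrt (kap t))
    (Fin.cons ((1 - sq t : ℂ) + (τ ^ 2 * v 1 + 4 * t ^ 3 * (1 - Complex.I) *
      (τ * v 0 / Real.sqrt (kap t))) / (2 * sq t)) fun i => (τ : ℂ) * v i.succ.succ))

/-- change of coordinates, from the domain to the model -/
noncomputable def Phi (t τ : ℝ) (z : E (m + 2)) : E (m + 2) :=
  WithLp.toLp 2 (Fin.cons ((z 0 - t * (1 + Complex.I)) * Real.sqrt (kap t) / τ)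
    (Fin.cons ((2 * sq t * (z 1 - (1 - sq t)) - 4 * t ^ 3 * (1 - Complex.I) *
      (z 0 - t * (1 + Complex.I))) / τ ^ 2) fun i => z i.succ.succ / (τ : ℂ)))

lemma Psi_zero (t τ : ℝ) (v : E (m + 2)) :
    Psi t τ v 0 = (t : ℂ) * (1 + Complex.I) + τ * v 0 / Real.sqrt (kap t) := rfl

lemma Psi_one (t τ : ℝ) (v : E (m + 2)) :
    Psi t τ v 1 = (1 - sq t : ℂ) + (τ ^ 2 * v 1 + 4 * t ^ 3 * (1 - Complex.I) *
      (τ * v 0 / Real.sqrt (kap t))) / (2 * sq t) := rfl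

lemma Psi_succ (t τ : ℝ) (v : E (m + 2)) (i : Fin m) :
    Psi t τ v i.succ.succ = (τ : ℂ) * v i.succ.succ := rfl

lemma Phi_zero (t τ : ℝ) (z : E (m + 2)) :
    Phi t τ z 0 = (z 0 - t * (1 + Complex.I)) * Real.sqrt (kap t) / τ := rfl

lemma Phi_one (t τ : ℝ) (z : E (m + 2)) :
    Phi t τ z 1 = (2 * sq t * (z 1 - (1 - sq t)) - 4 * t ^ 3 * (1 - Complex.I) *
      (z 0 - t * (1 + Complex.I))) / τ ^ 2 := rfl

lemma Phi_succ (t τ : ℝ) (z : E (m + 2)) (i : Fin m) :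
    Phi t τ z i.succ.succ = z i.succ.succ / (τ : ℂ) := rfl

lemma ext3 {v w : E (m + 2)} (h0 : v 0 = w 0) (h1 : v 1 = w 1)
    (h2 : ∀ i : Fin m, v i.succ.succ = w i.succ.succ) : v = w := by
  ext j
  refine Fin.cases h0 (fun j => ?_) j
  refine Fin.cases h1 (fun j => h2 j) j

lemma Psi_Phi {t τ : ℝ} (ht0 : 0 < t) (ht : t ≤ 1 / 2) (hτ : 0 < τ) (z : E (m + 2)) :
    Psi t τ (Phi t τ z) = z := by
  have h1 : (Real.sqrt (kap t) : ℂ) ≠ 0 := by
    exact_mod_cast (Real.sqrt_pos.2 (kap_pos ht0)).ne'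
  have h2 : (τ : ℂ) ≠ 0 := by exact_mod_cast hτ.ne'
  have h3 : (sq t : ℂ) ≠ 0 := by exact_mod_cast (sq_pos ht0 ht).ne'
  refine ext3 ?_ ?_ fun i => ?_
  · rw [Psi_zero, Phi_zero]
    field_simp
    ring
  · rw [Psi_one, Phi_one, Phi_zero]
    field_simp
    ring
  · rw [Psi_succ, Phi_succ]
    field_simp

lemma Phi_Psi {t τ : ℝ} (ht0 : 0 < t) (ht : t ≤ 1 / 2) (hτ : 0 < τ) (v : E (m + 2)) :
    Phi t τ (Psi t τ v) = v := by
  have h1 : (Real.sqrt (kap t) : ℂ) ≠ 0 := by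
    exact_mod_cast (Real.sqrt_pos.2 (kap_pos ht0)).ne'
  have h2 : (τ : ℂ) ≠ 0 := by exact_mod_cast hτ.ne'
  have h3 : (sq t : ℂ) ≠ 0 := by exact_mod_cast (sq_pos ht0 ht).ne'
  refine ext3 ?_ ?_ fun i => ?_
  · rw [Phi_zero, Psi_zero]
    field_simp
    ring
  · rw [Phi_one, Psi_one, Psi_zero]
    field_simp
    ring
  · rw [Phi_succ, Psi_succ]
    field_simp

lemma Phi_differentiable (t τ : ℝ) : Differentiable ℂ (Phi t τ : E (m + 2) → E (m + 2)) := by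
  have hc : ∀ j : Fin (m + 2), Differentiable ℂ fun z : E (m + 2) => z j := by
    intro j
    exact (differentiable_euclidean.1 (differentiable_id (𝕜 := ℂ) (E := E (m + 2)))) j
  rw [differentiable_euclidean]
  intro j
  refine Fin.cases ?_ (fun j => ?_) j
  · have : (fun z : E (m + 2) => Phi t τ z 0) =
        fun z => (z 0 - t * (1 + Complex.I)) * Real.sqrt (kap t) / τ := rfl
    rw [this]
    simp only [div_eq_mul_inv]
    exact (((hc 0).sub_const _).mul_const _).mul_const _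
  · refine Fin.cases ?_ (fun i => ?_) j
    · have : (fun z : E (m + 2) => Phi t τ z (Fin.succ 0)) =
        fun z => (2 * sq t * (z 1 - (1 - sq t)) - 4 * t ^ 3 * (1 - Complex.I) *
          (z 0 - t * (1 + Complex.I))) / τ ^ 2 := rfl
      rw [this]
      simp only [div_eq_mul_inv]
      exact ((((hc 1).sub_const _).const_mul _).fun_sub
        (((hc 0).sub_const _).const_mul _)).mul_const _
    · have : (fun z : E (m + 2) => Phi t τ z i.succ.succ) =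
        fun z => z i.succ.succ / (τ : ℂ) := rfl
      rw [this]
      simp only [div_eq_mul_inv]
      exact (hc _).mul_const _

/-- error terms -/
noncomputable def errA (t : ℝ) (v : E (m + 2)) : ℝ :=
  4 * t * (((v 0 / Real.sqrt (kap t) : ℂ)).re ^ 3 + ((v 0 / Real.sqrt (kap t) : ℂ)).im ^ 3) +
    2 * t ^ 3 * ((v 1).re * (((v 0 / Real.sqrt (kap t) : ℂ)).re + ((v 0 / Real.sqrt (kap t) : ℂ)).im)
      + (v 1).im * (((v 0 / Real.sqrt (kap t) : ℂ)).im - ((v 0 / Real.sqrt (kap t) : ℂ)).re)) /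
        sq t ^ 2

/-- error terms -/
noncomputable def errB (t : ℝ) (v : E (m + 2)) : ℝ :=
  ((v 0 / Real.sqrt (kap t) : ℂ)).re ^ 4 + ((v 0 / Real.sqrt (kap t) : ℂ)).im ^ 4 +
    ((v 1).re ^ 2 + (v 1).im ^ 2) / (4 * sq t ^ 2)

lemma rho_Psi {t τ : ℝ} (ht0 : 0 < t) (ht : t ≤ 1 / 2) (v : E (m + 2)) :
    rho (Psi t τ v) = τ ^ 2 * (-(v 1).re + tn 1 v) + τ ^ 3 * errA t v + τ ^ 4 * errB t v := by
  have hs := sq_pos ht0 ht
  have hs2 := sq_sq ht0 ht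
  have hk := Real.sqrt_pos.2 (kap_pos ht0)
  have hk2 : Real.sqrt (kap t) ^ 2 = kap t := Real.sq_sqrt (kap_pos ht0).le
  rw [tn_eq]
  unfold rho errA errB
  simp only [Psi_succ, norm_mul, mul_pow]
  rw [← Finset.mul_sum]
  have e0 : ∑ i : Fin m, ‖v i.succ.succ‖ ^ 2 = ss v := rfl
  rw [e0, Psi_zero, Psi_one]
  set ζ : ℂ := v 0 / Real.sqrt (kap t) with hζ
  have e1 : (τ : ℂ) * v 0 / Real.sqrt (kap t) = τ * ζ := by rw [hζ]; ring
  rw [e1]
  have e2 : ‖v 0‖ ^ 2 = kap t * (ζ.re ^ 2 + ζ.im ^ 2) := by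
    rw [← normsq ζ, hζ, norm_div, Complex.norm_real, Real.norm_eq_abs, abs_of_pos hk, div_pow, hk2]
    have := (kap_pos ht0).ne'
    field_simp
  have e3 : ‖(τ : ℂ)‖ ^ 2 = τ ^ 2 := by
    rw [Complex.norm_real, Real.norm_eq_abs, sq_abs]
  rw [e2, e3]
  have re0 : ((t : ℂ) * (1 + Complex.I) + τ * ζ).re = t + τ * ζ.re := by simp
  have im0 : ((t : ℂ) * (1 + Complex.I) + τ * ζ).im = t + τ * ζ.im := by simp
  rw [re0, im0]
  set w : ℂ := ((1 - sq t : ℂ) + (τ ^ 2 * v 1 + 4 * t ^ 3 * (1 - Complex.I) *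
      (τ * ζ)) / (2 * sq t)) with hw
  have hw' : w = ((1 - sq t + (τ ^ 2 * (v 1).re + 4 * t ^ 3 * (τ * (ζ.re + ζ.im))) / (2 * sq t) : ℝ) : ℂ)
      + (((τ ^ 2 * (v 1).im + 4 * t ^ 3 * (τ * (ζ.im - ζ.re))) / (2 * sq t) : ℝ) : ℂ) * Complex.I := by
    have hv : v 1 = ((v 1).re : ℂ) + (v 1).im * Complex.I := (Complex.re_add_im _).symm
    have hz : ζ = (ζ.re : ℂ) + ζ.im * Complex.I := (Complex.re_add_im _).symm
    rw [hw]
    conv_lhs => rw [hv, hz]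
    push_cast
    have hs' : (sq t : ℂ) ≠ 0 := by exact_mod_cast hs.ne'
    field_simp
    ring_nf
    rw [Complex.I_sq]
    ring
  have rw1 : w.re = 1 - sq t + (τ ^ 2 * (v 1).re + 4 * t ^ 3 * (τ * (ζ.re + ζ.im))) / (2 * sq t) := by
    rw [hw', Complex.add_re, Complex.ofReal_re, Complex.re_ofReal_mul, Complex.I_re]; ring
  have iw1 : w.im = (τ ^ 2 * (v 1).im + 4 * t ^ 3 * (τ * (ζ.im - ζ.re))) / (2 * sq t) := by
    rw [hw', Complex.add_im, Complex.ofReal_im, Complex.im_ofReal_mul, Complex.I_im]; ring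
  rw [normsq w, rw1, iw1]
  unfold kap
  set a := ζ.re
  set b := ζ.im
  set c := (v 1).re
  set d := (v 1).im
  set s := sq t
  have hs4 : s ^ 2 = 1 - 2 * t ^ 4 := hs2
  have key : (1 - s + (τ ^ 2 * c + 4 * t ^ 3 * (τ * (a + b))) / (2 * s)) ^ 2 +
      ((τ ^ 2 * d + 4 * t ^ 3 * (τ * (b - a))) / (2 * s)) ^ 2 -
      2 * (1 - s + (τ ^ 2 * c + 4 * t ^ 3 * (τ * (a + b))) / (2 * s)) =
      s ^ 2 - 1 - (τ ^ 2 * c + 4 * t ^ 3 * (τ * (a + b))) +
      ((τ ^ 2 * c + 4 * t ^ 3 * (τ * (a + b))) ^ 2 +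
        (τ ^ 2 * d + 4 * t ^ 3 * (τ * (b - a))) ^ 2) / (4 * s ^ 2) := by
    field_simp
    ring
  have h2 : (t + τ * a) ^ 4 + (t + τ * b) ^ 4 +
      ((1 - s + (τ ^ 2 * c + 4 * t ^ 3 * (τ * (a + b))) / (2 * s)) ^ 2 +
        ((τ ^ 2 * d + 4 * t ^ 3 * (τ * (b - a))) / (2 * s)) ^ 2) -
      2 * (1 - s + (τ ^ 2 * c + 4 * t ^ 3 * (τ * (a + b))) / (2 * s)) =
      (t + τ * a) ^ 4 + (t + τ * b) ^ 4 + (s ^ 2 - 1 -
      (τ ^ 2 * c + 4 * t ^ 3 * (τ * (a + b))) +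
      ((τ ^ 2 * c + 4 * t ^ 3 * (τ * (a + b))) ^ 2 +
        (τ ^ 2 * d + 4 * t ^ 3 * (τ * (b - a))) ^ 2) / (4 * s ^ 2)) := by
    rw [← key]; ring
  rw [h2, hs4]
  have hs5 : s ^ 2 ≠ 0 := by positivity
  have hs6 : (1 - 2 * t ^ 4 : ℝ) ≠ 0 := by rw [← hs4]; exact hs5
  field_simp
  ring

lemma rho_Psi_ge {t τ : ℝ} (ht0 : 0 < t) (ht : t ≤ 1 / 2) (v : E (m + 2)) :
    τ ^ 2 * (-(v 1).re + 2 / 7 * tn 1 v) ≤ rho (Psi t τ v) := by
  have hs := sq_pos ht0 ht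
  have hk := Real.sqrt_pos.2 (kap_pos ht0)
  have hk2 : Real.sqrt (kap t) ^ 2 = kap t := Real.sq_sqrt (kap_pos ht0).le
  have hkle := kap_le ht0 ht
  rw [rho_Psi ht0 ht, tn_eq]
  unfold errA errB
  set ζ : ℂ := v 0 / Real.sqrt (kap t) with hζ
  have e2 : ‖v 0‖ ^ 2 = kap t * (ζ.re ^ 2 + ζ.im ^ 2) := by
    rw [← normsq ζ, hζ, norm_div, Complex.norm_real, Real.norm_eq_abs, abs_of_pos hk, div_pow, hk2]
    have := (kap_pos ht0).ne'
    field_simp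
  rw [e2]
  set a := ζ.re
  set b := ζ.im
  set c := (v 1).re
  set d := (v 1).im
  set s := sq t
  have hss := ss_nonneg v
  -- the exact expression
  have h1 : τ ^ 2 * (-c + (kap t * (a ^ 2 + b ^ 2) + ss v)) +
      τ ^ 3 * (4 * t * (a ^ 3 + b ^ 3) + 2 * t ^ 3 * (c * (a + b) + d * (b - a)) / s ^ 2) +
      τ ^ 4 * (a ^ 4 + b ^ 4 + (c ^ 2 + d ^ 2) / (4 * s ^ 2)) =
      τ ^ 2 * (-c + ss v) + τ ^ 2 * (a ^ 2 * ((τ * a + 2 * t) ^ 2 + 2 * t ^ 2) +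
        b ^ 2 * ((τ * b + 2 * t) ^ 2 + 2 * t ^ 2)) +
      ((τ ^ 2 * c + 4 * t ^ 3 * (τ * (a + b))) ^ 2 +
        (τ ^ 2 * d + 4 * t ^ 3 * (τ * (b - a))) ^ 2) / (4 * s ^ 2) := by
    have hkap : kap t = 6 * t ^ 2 + 8 * t ^ 6 / s ^ 2 := rfl
    rw [hkap]
    field_simp
    ring
  rw [h1]
  have h2 : 0 ≤ ((τ ^ 2 * c + 4 * t ^ 3 * (τ * (a + b))) ^ 2 +
        (τ ^ 2 * d + 4 * t ^ 3 * (τ * (b - a))) ^ 2) / (4 * s ^ 2) := by positivity
  have h3 : 2 / 7 * (kap t * (a ^ 2 + b ^ 2)) ≤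
      a ^ 2 * ((τ * a + 2 * t) ^ 2 + 2 * t ^ 2) + b ^ 2 * ((τ * b + 2 * t) ^ 2 + 2 * t ^ 2) := by
    have h4 : kap t * (a ^ 2 + b ^ 2) ≤ 7 * t ^ 2 * (a ^ 2 + b ^ 2) :=
      mul_le_mul_of_nonneg_right hkle (by positivity)
    have h5 : 0 ≤ a ^ 2 * (τ * a + 2 * t) ^ 2 := by positivity
    have h6 : 0 ≤ b ^ 2 * (τ * b + 2 * t) ^ 2 := by positivity
    nlinarith
  have h7 : 2 / 7 * ss v ≤ ss v := by linarith
  have h8 := mul_le_mul_of_nonneg_left (add_le_add h3 h7) (sq_nonneg τ)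
  nlinarith

lemma continuous_coord (j : Fin (m + 2)) : Continuous fun v : E (m + 2) => v j := by fun_prop

lemma rho_Psi_loc {t : ℝ} (ht0 : 0 < t) (ht : t ≤ 1 / 2) (R : ℝ) :
    ∃ K : ℝ, 0 ≤ K ∧ ∀ τ, 0 < τ → τ ≤ 1 → ∀ v : E (m + 2), ‖v‖ ≤ R →
      |rho (Psi t τ v) - τ ^ 2 * (-(v 1).re + tn 1 v)| ≤ K * τ ^ 3 := by
  have hcA : Continuous fun v : E (m + 2) => |errA t v| + |errB t v| := by
    unfold errA errB
    have h0 : Continuous fun v : E (m + 2) => v 0 := continuous_coord 0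
    have h1 : Continuous fun v : E (m + 2) => v 1 := continuous_coord 1
    have h2 : Continuous fun v : E (m + 2) => (v 0 / Real.sqrt (kap t) : ℂ) := h0.div_const _
    have h3 := Complex.continuous_re.comp h2
    have h4 := Complex.continuous_im.comp h2
    have h5 := Complex.continuous_re.comp h1
    have h6 := Complex.continuous_im.comp h1
    simp only [Function.comp_def] at h3 h4 h5 h6
    fun_prop
  obtain ⟨K, hK⟩ := (isCompact_closedBall (0 : E (m + 2)) R).exists_bound_of_continuousOn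
    hcA.continuousOn
  refine ⟨max K 0, le_max_right _ _, ?_⟩
  intro τ hτ0 hτ1 v hv
  have h1 := hK v (by rw [mem_closedBall_zero_iff]; exact hv)
  rw [Real.norm_eq_abs, abs_of_nonneg (by positivity)] at h1
  rw [rho_Psi ht0 ht]
  have h2 : τ ^ 2 * (-(v 1).re + tn 1 v) + τ ^ 3 * errA t v + τ ^ 4 * errB t v -
      τ ^ 2 * (-(v 1).re + tn 1 v) = τ ^ 3 * (errA t v + τ * errB t v) := by ring
  rw [h2, abs_mul, abs_of_pos (by positivity : 0 < τ ^ 3), mul_comm]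
  refine mul_le_mul_of_nonneg_right ?_ (by positivity)
  calc |errA t v + τ * errB t v| ≤ |errA t v| + |τ * errB t v| := abs_add_le _ _
    _ ≤ |errA t v| + |errB t v| := by
        rw [abs_mul, abs_of_pos hτ0]
        have := abs_nonneg (errB t v)
        nlinarith
    _ ≤ K := h1
    _ ≤ max K 0 := le_max_left _ _

/-- the domain -/
def Dom (m : ℕ) : Set (E (m + 2)) := {z | rho z < 0}

/-- near the strongly pseudoconvex boundary point with parameter `t` the squeezing function is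
close to `1` -/
theorem squeezing_near {t : ℝ} (ht0 : 0 < t) (ht : t ≤ 1 / 2) (ε : ℝ) (hε : 0 < ε) (hε1 : ε ≤ 1) :
    ∃ τ₀ : ℝ, 0 < τ₀ ∧ ∀ τ, 0 < τ → τ < τ₀ → Psi t τ (ev 1) ∈ Dom m ∧
      1 - ε ≤ squeezing (Dom m) (Psi t τ (ev 1)) :=
  squeezing_model (by omega) 1 (Dom m) rho rfl (Phi t) (Psi t)
    (fun _ hτ z => Psi_Phi ht0 ht hτ z) (fun _ hτ v => Phi_Psi ht0 ht hτ v)
    (fun τ _ => Phi_differentiable t τ) (2 / 7) (by norm_num)
    (fun _ _ v => rho_Psi_ge ht0 ht v) (rho_Psi_loc ht0 ht) ε hε hε1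

lemma norm_le3 (v : E (m + 2)) (hv : ∀ i : Fin m, v i.succ.succ = 0) :
    ‖v‖ ≤ ‖v 0‖ + ‖v 1‖ := by
  have h1 := norm_sq_eq3 v
  have h2 : ss v = 0 := by
    unfold ss
    apply Finset.sum_eq_zero
    intro i _
    rw [hv i]; simp
  rw [h2, add_zero] at h1
  have h3 := norm_nonneg v
  have h4 := norm_nonneg (v 0)
  have h5 := norm_nonneg (v 1)
  nlinarith

lemma sq_ge {t : ℝ} (ht0 : 0 < t) (ht : t ≤ 1 / 2) : 1 - 2 * t ^ 4 ≤ sq t ∧ sq t ≤ 1 ∧ 1 / 2 ≤ sq t := by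
  have hs := sq_pos ht0 ht
  have hs2 := sq_sq ht0 ht
  have h4 : t ^ 4 ≤ 1 / 16 := by
    have := pow_le_pow_left₀ ht0.le ht 4
    norm_num at this
    exact this
  have h40 : 0 < t ^ 4 := by positivity
  have h1 : sq t ≤ 1 := by nlinarith
  refine ⟨by nlinarith, h1, by nlinarith⟩

lemma norm_Psi_ev {t τ : ℝ} (ht0 : 0 < t) (ht : t ≤ 1 / 2) (hτ0 : 0 < τ) (hτ1 : τ ≤ 1) :
    ‖(Psi t τ (ev 1) : E (m + 2))‖ ≤ 4 * t + τ := by
  have h0 : (ev 1 : E (m + 2)) 0 = 0 := ev_apply_ne (by simp)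
  have h1 : (ev 1 : E (m + 2)) 1 = 1 := ev_apply_self 1
  have h2 : ∀ i : Fin m, (ev 1 : E (m + 2)) i.succ.succ = 0 := by
    intro i
    apply ev_apply_ne
    intro h
    have := congrArg Fin.val h
    simp at this
  obtain ⟨hs1, hs2, hs3⟩ := sq_ge ht0 ht
  refine (norm_le3 _ ?_).trans ?_
  · intro i
    rw [Psi_succ, h2, mul_zero]
  · rw [Psi_zero, Psi_one, h0, h1]
    simp only [mul_zero, zero_div, add_zero, mul_one]
    have e1 : ‖(t : ℂ) * (1 + Complex.I)‖ ≤ 2 * t := by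
      rw [norm_mul, Complex.norm_real, Real.norm_eq_abs, abs_of_pos ht0]
      have : ‖(1 + Complex.I)‖ ≤ 2 := by
        refine (norm_add_le _ _).trans ?_
        rw [norm_one, Complex.norm_I]; norm_num
      nlinarith
    have e2 : ‖(1 - sq t : ℂ) + τ ^ 2 / (2 * sq t)‖ ≤ 2 * t + τ := by
      have e3 : (1 - sq t : ℂ) + τ ^ 2 / (2 * sq t) = ((1 - sq t + τ ^ 2 / (2 * sq t) : ℝ) : ℂ) := by
        push_cast; ring
      rw [e3, Complex.norm_real, Real.norm_eq_abs, abs_of_nonneg (by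
        have : 0 ≤ τ ^ 2 / (2 * sq t) := by positivity
        linarith)]
      have e4 : τ ^ 2 / (2 * sq t) ≤ τ := by
        rw [div_le_iff₀ (by linarith)]
        nlinarith
      have e5 : 2 * t ^ 4 ≤ 2 * t := by
        have : t ^ 4 ≤ t := by
          have h := pow_le_pow_of_le_one ht0.le (by linarith : t ≤ 1) (by norm_num : 1 ≤ 4)
          simpa using h
        linarith
      linarith
    linarith

/-- a sequence in the domain tending to the origin along which the squeezing function tends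
to `1` -/
theorem exists_sequence (m : ℕ) : ∃ z : ℕ → E (m + 2), (∀ k, z k ∈ Dom m) ∧
    Tendsto z atTop (𝓝 0) ∧ Tendsto (fun k => squeezing (Dom m) (z k)) atTop (𝓝 1) := by
  have h : ∀ k : ℕ, ∃ z : E (m + 2), z ∈ Dom m ∧ ‖z‖ ≤ 5 * (1 / ((k : ℝ) + 2)) ∧
      1 - 1 / ((k : ℝ) + 2) ≤ squeezing (Dom m) z := by
    intro k
    set t : ℝ := 1 / ((k : ℝ) + 2) with ht
    have ht0 : 0 < t := by positivity
    have ht1 : t ≤ 1 / 2 := by
      rw [ht]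
      apply one_div_le_one_div_of_le (by norm_num)
      have : (0 : ℝ) ≤ k := Nat.cast_nonneg k
      linarith
    obtain ⟨τ₀, hτ₀, hτ⟩ := squeezing_near (m := m) ht0 ht1 t ht0 (by linarith)
    set τ : ℝ := min (τ₀ / 2) t with hτdef
    have hτ0 : 0 < τ := lt_min (by linarith) ht0
    have hτt : τ ≤ t := min_le_right _ _
    have hττ₀ : τ < τ₀ := lt_of_le_of_lt (min_le_left _ _) (by linarith)
    obtain ⟨h1, h2⟩ := hτ τ hτ0 hττ₀
    refine ⟨_, h1, ?_, h2⟩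
    have := norm_Psi_ev (m := m) ht0 ht1 hτ0 (by linarith)
    linarith
  choose z h1 h2 h3 using h
  have hlim : Tendsto (fun k : ℕ => 1 / ((k : ℝ) + 2)) atTop (𝓝 0) := by
    have h := (tendsto_one_div_add_atTop_nhds_zero_nat (𝕜 := ℝ)).comp (tendsto_add_atTop_nat 1)
    refine h.congr fun k => ?_
    simp only [Function.comp_apply]
    push_cast
    ring
  refine ⟨z, h1, ?_, ?_⟩
  · rw [tendsto_zero_iff_norm_tendsto_zero]
    have h5 : Tendsto (fun k : ℕ => 5 * (1 / ((k : ℝ) + 2))) atTop (𝓝 0) := by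
      simpa using hlim.const_mul 5
    exact squeeze_zero (fun _ => norm_nonneg _) h2 h5
  · have h6 : Tendsto (fun k : ℕ => 1 - 1 / ((k : ℝ) + 2)) atTop (𝓝 1) := by
      simpa using hlim.const_sub 1
    exact tendsto_of_tendsto_of_tendsto_of_le_of_le h6 tendsto_const_nhds h3
      (fun k => squeezing_le_one (by omega) _ _)

end Pool.Agent.V8H60.Squeeze
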