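import Mathlib
import Pool.Agent.V8H60.Squeeze.Domain

/-!
# Boundary geometry of the domain `x⁴ + y⁴ + |w - 1|² + ∑ |z_j|² < 1`
-/

namespace Pool.Agent.V8H60.Squeeze

open Metric Set Filter Topology Asymptotics
open scoped ContDiff

variable {m : ℕ}

/-! ### The expansion of the defining function -/

/-- linear part at `q` -/
noncomputable def lin (q v : E (m + 2)) : ℝ :=
  4 * ((q 0).re ^ 3 * (v 0).re + (q 0).im ^ 3 * (v 0).im) +
    2 * ((q 1).re * (v 1).re + (q 1).im * (v 1).im) - 2 * (v 1).re +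
      2 * ∑ i : Fin m, ((q i.succ.succ).re * (v i.succ.succ).re +
        (q i.succ.succ).im * (v i.succ.succ).im)

/-- remainder at `q` -/
noncomputable def rem (q v : E (m + 2)) : ℝ :=
  (v 0).re ^ 2 * (6 * (q 0).re ^ 2 + 4 * (q 0).re * (v 0).re + (v 0).re ^ 2) +
    (v 0).im ^ 2 * (6 * (q 0).im ^ 2 + 4 * (q 0).im * (v 0).im + (v 0).im ^ 2) +
      ‖v 1‖ ^ 2 + ss v

lemma rho_add (q v : E (m + 2)) : rho (q + v) = rho q + lin q v + rem q v := by
  unfold rho lin rem ss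
  have h : ∑ i : Fin m, ‖(q + v) i.succ.succ‖ ^ 2 = ∑ i : Fin m, ‖q i.succ.succ‖ ^ 2 +
      2 * ∑ i : Fin m, ((q i.succ.succ).re * (v i.succ.succ).re +
        (q i.succ.succ).im * (v i.succ.succ).im) + ∑ i : Fin m, ‖v i.succ.succ‖ ^ 2 := by
    rw [Finset.mul_sum, ← Finset.sum_add_distrib, ← Finset.sum_add_distrib]
    refine Finset.sum_congr rfl fun i _ => ?_
    rw [PiLp.add_apply, normsq, normsq, normsq, Complex.add_re, Complex.add_im]
    ring
  rw [h]
  simp only [PiLp.add_apply, Complex.add_re, Complex.add_im, normsq]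
  ring

lemma rem_ge (q v : E (m + 2)) :
    ((v 0).re ^ 4 + (v 0).im ^ 4) / 3 + ‖v 1‖ ^ 2 + ss v ≤ rem q v := by
  unfold rem
  nlinarith [sq_nonneg ((v 0).re * (3 * (q 0).re + (v 0).re)),
    sq_nonneg ((v 0).im * (3 * (q 0).im + (v 0).im))]

lemma rem_nonneg (q v : E (m + 2)) : 0 ≤ rem q v := by
  refine le_trans ?_ (rem_ge q v)
  have := ss_nonneg v
  positivity

lemma lin_add (q v w : E (m + 2)) : lin q (v + w) = lin q v + lin q w := by
  unfold lin
  have : ∑ i : Fin m, ((q i.succ.succ).re * ((v + w) i.succ.succ).re +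
        (q i.succ.succ).im * ((v + w) i.succ.succ).im) =
      ∑ i : Fin m, ((q i.succ.succ).re * (v i.succ.succ).re +
        (q i.succ.succ).im * (v i.succ.succ).im) + ∑ i : Fin m, ((q i.succ.succ).re *
          (w i.succ.succ).re + (q i.succ.succ).im * (w i.succ.succ).im) := by
    rw [← Finset.sum_add_distrib]
    refine Finset.sum_congr rfl fun i _ => ?_
    rw [PiLp.add_apply, Complex.add_re, Complex.add_im]; ring
  rw [this]
  simp only [PiLp.add_apply, Complex.add_re, Complex.add_im]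
  ring

lemma lin_smul (q v : E (m + 2)) (s : ℝ) : lin q ((s : ℂ) • v) = s * lin q v := by
  unfold lin
  have : ∑ i : Fin m, ((q i.succ.succ).re * (((s : ℂ) • v) i.succ.succ).re +
        (q i.succ.succ).im * (((s : ℂ) • v) i.succ.succ).im) =
      s * ∑ i : Fin m, ((q i.succ.succ).re * (v i.succ.succ).re +
        (q i.succ.succ).im * (v i.succ.succ).im) := by
    rw [Finset.mul_sum]
    refine Finset.sum_congr rfl fun i _ => ?_
    rw [PiLp.smul_apply, smul_eq_mul, Complex.re_ofReal_mul, Complex.im_ofReal_mul]; ring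
  rw [this]
  simp only [PiLp.smul_apply, smul_eq_mul, Complex.re_ofReal_mul, Complex.im_ofReal_mul]
  ring

/-- convexity inequality -/
lemma rho_convex (x y : E (m + 2)) (a b : ℝ) (ha : 0 ≤ a) (hb : 0 ≤ b) (hab : a + b = 1) :
    rho ((a : ℂ) • x + (b : ℂ) • y) ≤ a * rho x + b * rho y := by
  set q := (a : ℂ) • x + (b : ℂ) • y with hq
  have hx : x - q = (b : ℂ) • (x - y) := by
    have : (a : ℂ) = 1 - b := by
      have h : a = 1 - b := by linarith
      rw [h]; push_cast; ring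
    rw [hq, this]
    module
  have hy : y - q = ((-a : ℝ) : ℂ) • (x - y) := by
    have : (b : ℂ) = 1 - a := by
      have h : b = 1 - a := by linarith
      rw [h]; push_cast; ring
    rw [hq, this]
    push_cast
    module
  have h1 := rho_add q (x - q)
  have h2 := rho_add q (y - q)
  rw [add_sub_cancel] at h1 h2
  rw [hx, lin_smul] at h1
  rw [hy, lin_smul] at h2
  have h3 := rem_nonneg q ((b : ℂ) • (x - y))
  have h4 := rem_nonneg q (((-a : ℝ) : ℂ) • (x - y))
  have h5 : a * (rho q + b * lin q (x - y) + rem q ((b : ℂ) • (x - y))) +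
      b * (rho q + -a * lin q (x - y) + rem q (((-a : ℝ) : ℂ) • (x - y))) =
      (a + b) * rho q + a * rem q ((b : ℂ) • (x - y)) +
        b * rem q (((-a : ℝ) : ℂ) • (x - y)) := by ring
  rw [h1, h2, h5, hab]
  have := mul_nonneg ha h3
  have := mul_nonneg hb h4
  linarith

lemma real_smul_eq (s : ℝ) (v : E (m + 2)) : s • v = (s : ℂ) • v := by
  ext j
  simp

lemma convex_Dom (m : ℕ) : Convex ℝ (Dom m) := by
  intro x hx y hy a b ha hb hab
  rw [real_smul_eq, real_smul_eq]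
  have h := rho_convex x y a b ha hb hab
  have hx' : rho x < 0 := hx
  have hy' : rho y < 0 := hy
  change rho _ < 0
  rcases eq_or_lt_of_le ha with h0 | h0
  · have hb1 : b = 1 := by linarith
    rw [← h0, hb1] at h ⊢
    linarith
  · nlinarith

lemma rho_zero : rho (0 : E (m + 2)) = 0 := by
  unfold rho
  simp

lemma rho_ev : rho (ev 1 : E (m + 2)) = -1 := by
  unfold rho
  have h0 : (ev 1 : E (m + 2)) 0 = 0 := ev_apply_ne (by simp)
  have h1 : (ev 1 : E (m + 2)) 1 = 1 := ev_apply_self 1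
  have h2 : ∀ i : Fin m, (ev 1 : E (m + 2)) i.succ.succ = 0 := by
    intro i
    apply ev_apply_ne
    intro h
    have := congrArg Fin.val h
    simp at this
  simp only [h2, norm_zero]
  rw [h0, h1]
  norm_num

lemma contDiff_rho : ContDiff ℝ ∞ (rho : E (m + 2) → ℝ) := by
  have hc : ∀ j : Fin (m + 2), ContDiff ℝ ∞ fun z : E (m + 2) => z j := by
    intro j
    exact ((EuclideanSpace.proj (𝕜 := ℂ) j : E (m + 2) →L[ℂ] ℂ).restrictScalars ℝ).contDiff
  have hre : ∀ j : Fin (m + 2), ContDiff ℝ ∞ fun z : E (m + 2) => (z j).re := fun j =>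
    Complex.reCLM.contDiff.comp (hc j)
  have him : ∀ j : Fin (m + 2), ContDiff ℝ ∞ fun z : E (m + 2) => (z j).im := fun j =>
    Complex.imCLM.contDiff.comp (hc j)
  unfold rho
  simp only [normsq]
  refine ContDiff.add ?_ ?_
  · exact ((((hre 0).pow 4).add ((him 0).pow 4)).add (((hre 1).pow 2).add ((him 1).pow 2))).sub
      (contDiff_const.mul (hre 1))
  · exact ContDiff.sum fun i _ => ((hre _).pow 2).add ((him _).pow 2)

lemma continuous_rho : Continuous (rho : E (m + 2) → ℝ) := contDiff_rho.continuous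

/-! ### Derivatives along lines -/

lemma deriv_poly (c0 c1 c2 c3 c4 s : ℝ) :
    deriv (fun s : ℝ => c0 + c1 * s + c2 * s ^ 2 + c3 * s ^ 3 + c4 * s ^ 4) s =
      c1 + 2 * c2 * s + 3 * c3 * s ^ 2 + 4 * c4 * s ^ 3 := by
  have h : HasDerivAt (fun s : ℝ => c0 + c1 * s + c2 * s ^ 2 + c3 * s ^ 3 + c4 * s ^ 4)
      (0 + c1 * 1 + c2 * (2 * s ^ 1 * 1) + c3 * (3 * s ^ 2 * 1) + c4 * (4 * s ^ 3 * 1)) s := by
    refine HasDerivAt.add (HasDerivAt.add (HasDerivAt.add (HasDerivAt.add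
      (hasDerivAt_const s c0) ((hasDerivAt_id s).const_mul c1)) ?_) ?_) ?_
    · exact ((hasDerivAt_id s).pow 2).const_mul c2
    · exact ((hasDerivAt_id s).pow 3).const_mul c3
    · exact ((hasDerivAt_id s).pow 4).const_mul c4
  rw [h.deriv]
  ring

lemma iteratedDeriv_poly (c0 c1 c2 c3 c4 : ℝ) :
    iteratedDeriv 2 (fun s : ℝ => c0 + c1 * s + c2 * s ^ 2 + c3 * s ^ 3 + c4 * s ^ 4) 0 =
      2 * c2 := by
  rw [iteratedDeriv_succ, iteratedDeriv_one]
  have h1 : deriv (fun s : ℝ => c0 + c1 * s + c2 * s ^ 2 + c3 * s ^ 3 + c4 * s ^ 4) =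
      fun s => c1 + (2 * c2) * s + (3 * c3) * s ^ 2 + (4 * c4) * s ^ 3 + 0 * s ^ 4 := by
    funext s
    rw [deriv_poly]; ring
  rw [h1, deriv_poly]
  ring

/-- second coefficient -/
noncomputable def c2 (q v : E (m + 2)) : ℝ :=
  6 * (q 0).re ^ 2 * (v 0).re ^ 2 + 6 * (q 0).im ^ 2 * (v 0).im ^ 2 + ‖v 1‖ ^ 2 + ss v

lemma ss_smul (s : ℝ) (v : E (m + 2)) : ss ((s : ℂ) • v) = s ^ 2 * ss v := by
  unfold ss
  rw [Finset.mul_sum]
  refine Finset.sum_congr rfl fun i _ => ?_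
  rw [PiLp.smul_apply, norm_smul, Complex.norm_real, mul_pow, Real.norm_eq_abs, sq_abs]

lemma rho_line (q v : E (m + 2)) (s : ℝ) : rho (q + (s : ℂ) • v) =
    rho q + lin q v * s + c2 q v * s ^ 2 +
      (4 * (q 0).re * (v 0).re ^ 3 + 4 * (q 0).im * (v 0).im ^ 3) * s ^ 3 +
      ((v 0).re ^ 4 + (v 0).im ^ 4) * s ^ 4 := by
  rw [rho_add, lin_smul]
  unfold rem c2
  rw [ss_smul]
  simp only [PiLp.smul_apply, smul_eq_mul, Complex.re_ofReal_mul, Complex.im_ofReal_mul, norm_mul,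
    mul_pow, Complex.norm_real, Real.norm_eq_abs, sq_abs]
  ring

lemma levi_rho (q v : E (m + 2)) :
    levi rho q v = 3 * ‖q 0‖ ^ 2 * ‖v 0‖ ^ 2 + ‖v 1‖ ^ 2 + ss v := by
  unfold levi
  have h1 : ∀ s : ℝ, ((s : ℂ) * Complex.I) • v = (s : ℂ) • (Complex.I • v) := fun s => by
    rw [smul_smul]
  simp only [h1, rho_line]
  rw [iteratedDeriv_poly, iteratedDeriv_poly]
  have h2 : ss (Complex.I • v) = ss v := by
    unfold ss
    refine Finset.sum_congr rfl fun i _ => ?_
    rw [PiLp.smul_apply, norm_smul, Complex.norm_I, one_mul]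
  unfold c2
  rw [h2]
  simp only [PiLp.smul_apply, smul_eq_mul, norm_mul, Complex.norm_I, one_mul, Complex.mul_re,
    Complex.mul_im, Complex.I_re, Complex.I_im, normsq]
  ring

lemma fderiv_rho (q v : E (m + 2)) : fderiv ℝ rho q v = lin q v := by
  have hd : DifferentiableAt ℝ (rho : E (m + 2) → ℝ) q :=
    (contDiff_rho.differentiable (by simp)) q
  rw [← hd.lineDeriv_eq_fderiv]
  unfold lineDeriv
  simp only [real_smul_eq, rho_line]
  rw [deriv_poly]
  ring

lemma fderiv_rho_ne (z : E (m + 2)) (hz : rho z = 0) : fderiv ℝ rho z ≠ 0 := by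
  intro h
  have h1 := rho_add z (ev 1 - z)
  rw [add_sub_cancel, rho_ev, hz, ← fderiv_rho, h] at h1
  have h2 := rem_nonneg z (ev 1 - z)
  simp at h1
  linarith

lemma isOpen_Dom (m : ℕ) : IsOpen (Dom m) := isOpen_lt continuous_rho continuous_const

lemma frontier_Dom (m : ℕ) : frontier (Dom m) = {z | rho z = 0} := by
  apply Subset.antisymm
  · intro z hz
    rw [frontier, (isOpen_Dom m).interior_eq] at hz
    have h1 : rho z ≤ 0 := by
      have : closure (Dom m) ⊆ {z | rho z ≤ 0} :=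
        closure_minimal (fun z (hz : rho z < 0) => (le_of_lt hz : rho z ≤ 0)) (isClosed_le continuous_rho continuous_const)
      exact this hz.1
    have h2 : ¬ rho z < 0 := hz.2
    exact le_antisymm h1 (not_lt.1 h2)
  · intro z hz
    have hz0 : rho z = 0 := hz
    rw [frontier, (isOpen_Dom m).interior_eq]
    refine ⟨?_, fun h => by
      have : rho z < 0 := h
      linarith⟩
    have hlim : Tendsto (fun τ : ℝ => ((1 - τ : ℝ) : ℂ) • z + ((τ : ℝ) : ℂ) • ev 1) (𝓝[>] 0)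
        (𝓝 z) := by
      have hc : Continuous fun τ : ℝ => ((1 - τ : ℝ) : ℂ) • z + ((τ : ℝ) : ℂ) • (ev 1 : E (m + 2)) := by
        fun_prop
      have h := hc.tendsto 0
      simp only [sub_zero, Complex.ofReal_one, one_smul, Complex.ofReal_zero, zero_smul,
        add_zero] at h
      exact h.mono_left nhdsWithin_le_nhds
    refine mem_closure_of_tendsto hlim ?_
    have h01 : ∀ᶠ τ : ℝ in 𝓝[>] 0, 0 < τ ∧ τ < 1 := by
      have h := Ioo_mem_nhdsGT (show (0 : ℝ) < 1 by norm_num)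
      filter_upwards [h] with τ hτ using hτ
    filter_upwards [h01] with τ hτ
    have h := rho_convex z (ev 1) (1 - τ) τ (by linarith [hτ.2]) hτ.1.le (by ring)
    change rho _ < 0
    rw [hz0, rho_ev] at h
    linarith [hτ.1]

lemma bounded_Dom (m : ℕ) : Bornology.IsBounded (Dom m) := by
  rw [isBounded_iff_forall_norm_le]
  refine ⟨3, fun z hz => ?_⟩
  have h1 : rho z < 0 := hz
  unfold rho at h1
  have e0 : ∑ i : Fin m, ‖z i.succ.succ‖ ^ 2 = ss z := rfl
  rw [e0] at h1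
  have h2 := norm_sq_eq3 z
  have h3 := ss_nonneg z
  have h4 := norm_nonneg (z 1)
  have h5 : (z 1).re ≤ ‖z 1‖ := Complex.re_le_norm _
  have h6 : ‖z 0‖ ^ 2 = (z 0).re ^ 2 + (z 0).im ^ 2 := normsq _
  have h7 : (z 0).re ^ 2 ≤ (1 + (z 0).re ^ 4) / 2 := by nlinarith [sq_nonneg ((z 0).re ^ 2 - 1)]
  have h8 : (z 0).im ^ 2 ≤ (1 + (z 0).im ^ 4) / 2 := by nlinarith [sq_nonneg ((z 0).im ^ 2 - 1)]
  have h9 : 0 ≤ (z 0).re ^ 4 := by positivity
  have h10 : 0 ≤ (z 0).im ^ 4 := by positivity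
  have h11 : ‖z 1‖ < 2 := by nlinarith
  have h12 : ‖z‖ ^ 2 ≤ 9 := by nlinarith [sq_nonneg (‖z 1‖ - 1)]
  have h13 := norm_nonneg z
  nlinarith

lemma nonempty_Dom (m : ℕ) : (Dom m).Nonempty := ⟨ev 1, by
  change rho _ < 0
  rw [rho_ev]; norm_num⟩

lemma connected_Dom (m : ℕ) : IsConnected (Dom m) :=
  ⟨nonempty_Dom m, (convex_Dom m).isPreconnected⟩

/-! ### Finite type -/

/-- the complex linear function whose real part is `lin` -/
noncomputable def hlin (q v : E (m + 2)) : ℂ :=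
  4 * (((q 0).re ^ 3 : ℝ) - Complex.I * ((q 0).im ^ 3 : ℝ)) * v 0 +
    2 * ((q 1).re - Complex.I * (q 1).im) * v 1 - 2 * v 1 +
      2 * ∑ i : Fin m, ((q i.succ.succ).re - Complex.I * (q i.succ.succ).im) * v i.succ.succ

lemma hlin_re (q v : E (m + 2)) : (hlin q v).re = lin q v := by
  unfold hlin lin
  have h : (2 * ∑ i : Fin m, (((q i.succ.succ).re : ℂ) - Complex.I * (q i.succ.succ).im) *
      v i.succ.succ).re = 2 * ∑ i : Fin m, ((q i.succ.succ).re * (v i.succ.succ).re +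
        (q i.succ.succ).im * (v i.succ.succ).im) := by
    have h2 : ∀ w : ℂ, (2 * w).re = 2 * w.re := fun w => by simp
    rw [h2, Complex.re_sum]
    congr 1
    refine Finset.sum_congr rfl fun i _ => ?_
    simp [Complex.mul_re, Complex.mul_im]
  rw [Complex.add_re, h]
  congr 1
  simp only [Complex.sub_re, Complex.add_re, Complex.mul_re, Complex.mul_im, Complex.sub_im,
    Complex.ofReal_re, Complex.ofReal_im, Complex.I_re, Complex.I_im, Complex.re_ofNat,
    Complex.im_ofNat]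
  ring

lemma analyticAt_coord {γ : ℂ → E (m + 2)} {z : ℂ} (h : AnalyticAt ℂ γ z) (j : Fin (m + 2)) :
    AnalyticAt ℂ (fun ζ => γ ζ j) z := by
  have h1 : AnalyticAt ℂ (fun v : E (m + 2) => v j) (γ z) :=
    (EuclideanSpace.proj (𝕜 := ℂ) j : E (m + 2) →L[ℂ] ℂ).analyticAt (γ z)
  exact h1.comp h

lemma norm_pow_four_le (v : E (m + 2)) (hv : ‖v‖ ≤ 1) (q : E (m + 2)) :
    ‖v‖ ^ 4 / 18 ≤ rem q v := by
  refine le_trans ?_ (rem_ge q v)
  have h1 := norm_sq_eq3 v
  have h2 := ss_nonneg v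
  have h3 : ‖v 0‖ ^ 2 = (v 0).re ^ 2 + (v 0).im ^ 2 := normsq _
  have h4 : ‖v‖ ^ 2 ≤ 1 := by nlinarith [norm_nonneg v]
  set A := ‖v 0‖ ^ 2 with hA
  set B := ‖v 1‖ ^ 2 with hB
  set C := ss v with hC
  have hA0 : 0 ≤ A := sq_nonneg _
  have hB0 : 0 ≤ B := sq_nonneg _
  have h5 : ‖v‖ ^ 4 = (A + B + C) ^ 2 := by
    rw [← h1]; ring
  rw [h5]
  have h6 : A ^ 2 / 2 ≤ (v 0).re ^ 4 + (v 0).im ^ 4 := by
    rw [h3]; nlinarith [sq_nonneg ((v 0).re ^ 2 - (v 0).im ^ 2)]
  have h7 : (A + B + C) ^ 2 ≤ 3 * (A ^ 2 + B ^ 2 + C ^ 2) := by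
    nlinarith [sq_nonneg (A - B), sq_nonneg (B - C), sq_nonneg (A - C)]
  have hB1 : B ≤ 1 := by linarith
  have hC1 : C ≤ 1 := by linarith
  have h8 : B ^ 2 ≤ B := by nlinarith
  have h9 : C ^ 2 ≤ C := by nlinarith
  linarith

lemma finiteType (q : E (m + 2)) (hq : rho q = 0) : FiniteTypeAt rho q := by
  refine ⟨4, ?_⟩
  intro γ hγ hγ0 k₁ k hord hO
  have hsub : AnalyticAt ℂ (fun ζ => γ ζ - q) 0 := hγ.sub analyticAt_const
  obtain ⟨g, hg, hg0, hgeq⟩ := hsub.analyticOrderAt_eq_natCast.1 hord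
  -- the holomorphic function
  set h : ℂ → ℂ := fun ζ => hlin q (γ ζ - q) with hh
  have hha : AnalyticAt ℂ h 0 := by
    have hc : ∀ j, AnalyticAt ℂ (fun ζ => (γ ζ - q) j) 0 := fun j => analyticAt_coord hsub j
    have e : h = fun ζ => 4 * (((q 0).re ^ 3 : ℝ) - Complex.I * ((q 0).im ^ 3 : ℝ)) * (γ ζ - q) 0 +
      2 * ((q 1).re - Complex.I * (q 1).im) * (γ ζ - q) 1 - 2 * (γ ζ - q) 1 +
      2 * ∑ i : Fin m, ((q i.succ.succ).re - Complex.I * (q i.succ.succ).im) *
        (γ ζ - q) i.succ.succ := rfl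
    rw [e]
    refine AnalyticAt.add (AnalyticAt.sub (AnalyticAt.add ?_ ?_) ?_) ?_
    · exact analyticAt_const.mul (hc 0)
    · exact analyticAt_const.mul (hc 1)
    · exact analyticAt_const.mul (hc 1)
    · refine analyticAt_const.mul ?_
      exact Finset.analyticAt_fun_sum _ fun i _ => analyticAt_const.mul (hc _)
  have hh0 : h 0 = 0 := by
    rw [hh]
    simp only [hγ0, sub_self]
    unfold hlin
    simp
  -- all properties hold on a ball
  have hgc : ∀ᶠ ζ in 𝓝 (0 : ℂ), ‖g 0‖ / 2 < ‖g ζ‖ := by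
    have := hg.continuousAt.norm
    refine this.eventually (lt_mem_nhds ?_)
    have : 0 < ‖g 0‖ := norm_pos_iff.2 hg0
    linarith
  have hsmall : ∀ᶠ ζ in 𝓝 (0 : ℂ), ‖γ ζ - q‖ < 1 := by
    have := hsub.continuousAt.norm
    refine this.eventually (gt_mem_nhds ?_)
    simp only [hγ0, sub_self, norm_zero]
    norm_num
  have hhan : ∀ᶠ ζ in 𝓝 (0 : ℂ), AnalyticAt ℂ h ζ := hha.eventually_analyticAt
  obtain ⟨C, hC⟩ := hO.bound
  obtain ⟨r₀, hr₀, hball⟩ := Metric.eventually_nhds_iff_ball.1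
    (hgeq.and (hgc.and (hsmall.and (hhan.and hC))))
  -- lower bound on circles
  set c : ℝ := (‖g 0‖ / 2) ^ 4 / 18 with hc
  have hcpos : 0 < c := by
    have : 0 < ‖g 0‖ := norm_pos_iff.2 hg0
    positivity
  have key : ∀ r, 0 < r → r < r₀ → c * r ^ (4 * k₁) ≤ C * r ^ k := by
    intro r hr0 hr
    have hcb : closedBall (0 : ℂ) r ⊆ ball 0 r₀ := closedBall_subset_ball hr
    have hd : DiffContOnCl ℂ (fun ζ => Complex.exp (h ζ)) (ball 0 r) := by
      apply DifferentiableOn.diffContOnCl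
      rw [closure_ball _ hr0.ne']
      intro ζ hζ
      have := (hball ζ (hcb hζ)).2.2.2.1
      exact (this.differentiableAt.cexp).differentiableWithinAt
    obtain ⟨ζ, hζ, hmax⟩ := Complex.exists_mem_frontier_isMaxOn_norm isBounded_ball
      (⟨0, mem_ball_self hr0⟩ : (ball (0 : ℂ) r).Nonempty) hd
    have hζr : ‖ζ‖ = r := by
      rw [frontier_ball _ hr0.ne', mem_sphere_zero_iff_norm] at hζ
      exact hζ
    have hζb : ζ ∈ ball (0 : ℂ) r₀ := by
      rw [mem_ball_zero_iff, hζr]; exact hr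
    have h0 := hmax (show (0 : ℂ) ∈ closure (ball (0 : ℂ) r) from
      subset_closure (mem_ball_self hr0))
    simp only [Function.comp_apply, mem_ofPred_eq, Complex.norm_exp, hh0, Complex.zero_re,
      Real.exp_zero] at h0
    have hre : 0 ≤ (h ζ).re := by
      rw [← Real.exp_zero] at h0
      exact Real.exp_le_exp.1 h0
    obtain ⟨p1, p2, p3, -, p5⟩ := hball ζ hζb
    have hrho : rho (γ ζ) = lin q (γ ζ - q) + rem q (γ ζ - q) := by
      have := rho_add q (γ ζ - q)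
      rw [add_sub_cancel, hq] at this
      linarith
    have hlin : 0 ≤ lin q (γ ζ - q) := by
      rw [← hlin_re]; exact hre
    have hrem := norm_pow_four_le (γ ζ - q) p3.le q
    have hn : ‖γ ζ - q‖ = r ^ k₁ * ‖g ζ‖ := by
      rw [p1, norm_smul, norm_pow, sub_zero, hζr]
    have h4 : c * r ^ (4 * k₁) ≤ ‖γ ζ - q‖ ^ 4 / 18 := by
      rw [hn, hc, mul_pow, ← pow_mul, mul_comm k₁ 4]
      have h5 : (‖g 0‖ / 2) ^ 4 ≤ ‖g ζ‖ ^ 4 := pow_le_pow_left₀ (by positivity) p2.le 4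
      have h6 : 0 ≤ r ^ (4 * k₁) := by positivity
      nlinarith
    have h7 : rho (γ ζ) ≤ C * r ^ k := by
      have := (le_abs_self _).trans p5
      rwa [Real.norm_eq_abs, abs_of_nonneg (by positivity), hζr] at this
    linarith
  by_contra hcon
  push Not at hcon
  -- `c r^{4 k₁} ≤ C r^k` with `4 k₁ < k` is impossible as `r → 0`
  obtain ⟨d, hd⟩ : ∃ d, k = 4 * k₁ + (d + 1) := ⟨k - 4 * k₁ - 1, by omega⟩
  set M : ℝ := |C| + 1 with hM
  have hM0 : 0 < M := by positivity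
  set r : ℝ := min (r₀ / 2) (min (1 / 2) (c / (2 * M))) with hr
  have hr0 : 0 < r := by positivity
  have hr1 : r < r₀ := lt_of_le_of_lt (min_le_left _ _) (by linarith)
  have hr2 : r ≤ 1 := ((min_le_right _ _).trans (min_le_left _ _)).trans (by norm_num)
  have hr3 : r ≤ c / (2 * M) := (min_le_right _ _).trans (min_le_right _ _)
  have h1 := key r hr0 hr1
  rw [hd, pow_add] at h1
  have hpos : 0 < r ^ (4 * k₁) := by positivity
  have h2 : c ≤ C * r ^ (d + 1) := by
    have : c * r ^ (4 * k₁) ≤ (C * r ^ (d + 1)) * r ^ (4 * k₁) := by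
      calc c * r ^ (4 * k₁) ≤ C * (r ^ (4 * k₁) * r ^ (d + 1)) := h1
        _ = _ := by ring
    exact le_of_mul_le_mul_right this hpos
  have h3 : r ^ (d + 1) ≤ r := by
    have := pow_le_pow_of_le_one hr0.le hr2 (by omega : 1 ≤ d + 1)
    simpa using this
  have h4 : C * r ^ (d + 1) ≤ M * r := by
    calc C * r ^ (d + 1) ≤ M * r ^ (d + 1) :=
          mul_le_mul_of_nonneg_right ((le_abs_self C).trans (by rw [hM]; linarith)) (by positivity)
      _ ≤ M * r := mul_le_mul_of_nonneg_left h3 hM0.le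
  have h5 : M * r ≤ c / 2 := by
    have := mul_le_mul_of_nonneg_left hr3 hM0.le
    calc M * r ≤ M * (c / (2 * M)) := this
      _ = c / 2 := by field_simp
  linarith

end Pool.Agent.V8H60.Squeeze
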